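import Pool.Agent.N110.CC.Stm

set_option autoImplicit false

/-! Project CC, leaf LIN (helper769): linear forms whose maximum is positive. -/

open Filter

namespace Pool.Agent.N769.CC

open Pool.Agent.N110.CC

/-- bound for a linear form on the unit cube -/
noncomputable def bd {r : ℕ} (l : (Fin r → ℝ) →ₗ[ℝ] ℝ) : ℝ :=
  ∑ i, |l (fun j => if i = j then 1 else 0)|

theorem bd_nonneg {r : ℕ} (l : (Fin r → ℝ) →ₗ[ℝ] ℝ) : 0 ≤ bd l :=
  Finset.sum_nonneg fun _ _ => abs_nonneg _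

theorem le_bd {r : ℕ} (l : (Fin r → ℝ) →ₗ[ℝ] ℝ) (x : Fin r → ℝ) (hx : ∀ i, |x i| ≤ 1) :
    |l x| ≤ bd l := by
  rw [LinearMap.pi_apply_eq_sum_univ l x]
  refine (Finset.abs_sum_le_sum_abs _ _).trans (Finset.sum_le_sum fun i _ => ?_)
  rw [smul_eq_mul, abs_mul]
  exact mul_le_of_le_one_left (abs_nonneg _) (hx i)

theorem flr {r : ℕ} (v : Fin r → ℝ) : ∃ w : Fin r → ℤ, ∀ i, |((w i : ℤ) : ℝ) - v i| ≤ 1 := by
  refine ⟨fun i => ⌊v i⌋, fun i => ?_⟩
  rw [abs_le]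
  constructor
  · linarith [Int.lt_floor_add_one (v i)]
  · linarith [Int.floor_le (v i)]

theorem diff_le {r : ℕ} (l : (Fin r → ℝ) →ₗ[ℝ] ℝ) (v : Fin r → ℝ) (w : Fin r → ℤ)
    (h : ∀ i, |((w i : ℤ) : ℝ) - v i| ≤ 1) : |l (fun i => (w i : ℝ)) - l v| ≤ bd l := by
  rw [← map_sub]
  exact le_bd l _ h

theorem norm_le {r : ℕ} (v : Fin r → ℝ) (w : Fin r → ℤ)
    (h : ∀ i, |((w i : ℤ) : ℝ) - v i| ≤ 1) : ∑ i, |v i| ≤ (∑ i, |(w i : ℝ)|) + r := by
  have : ∑ i, |v i| ≤ ∑ i, (|(w i : ℝ)| + 1) := by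
    refine Finset.sum_le_sum fun i _ => ?_
    have h1 := h i
    have h2 : |v i| ≤ |(w i : ℝ)| + |((w i : ℤ) : ℝ) - v i| := by
      have := abs_sub_abs_le_abs_sub (v i) (w i : ℝ)
      rw [abs_sub_comm] at this
      linarith
    linarith
  simpa [Finset.sum_add_distrib] using this

theorem step1 {r : ℕ} (W : Finset ((Fin r → ℝ) →ₗ[ℝ] ℝ)) (δ : ℝ) (hδ : 0 < δ)
    (h : ∀ v : Fin r → ℤ, ∃ ℓ ∈ W, δ * ∑ i, |(v i : ℝ)| ≤ ℓ (fun i => (v i : ℝ)))
    (v : Fin r → ℝ) : ∃ ℓ ∈ W, δ * ∑ i, |v i| ≤ ℓ v := by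
  by_contra hc
  push Not at hc
  obtain ⟨n, hn⟩ : ∃ n : ℕ, ∀ ℓ ∈ W, δ * r + bd ℓ < n * (δ * ∑ i, |v i| - ℓ v) := by
    have : ∀ ℓ ∈ W, ∀ᶠ n : ℕ in atTop, δ * r + bd ℓ < n * (δ * ∑ i, |v i| - ℓ v) := by
      intro ℓ hℓ
      have h1 := hc ℓ hℓ
      have h2 : 0 < δ * ∑ i, |v i| - ℓ v := by linarith
      have h3 : Tendsto (fun n : ℕ => (n : ℝ) * (δ * ∑ i, |v i| - ℓ v)) atTop atTop :=
        tendsto_natCast_atTop_atTop.atTop_mul_const h2
      exact h3.eventually_gt_atTop _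
    exact ((Finset.eventually_all W).2 this).exists
  obtain ⟨w, hw⟩ := flr (fun i => (n : ℝ) * v i)
  obtain ⟨ℓ, hℓ, h1⟩ := h w
  have h2 := hn ℓ hℓ
  have h3 := norm_le _ w hw
  have h4 := diff_le ℓ _ w hw
  have h5 : ℓ (fun i => (n : ℝ) * v i) = n * ℓ v := by
    have : (fun i => (n : ℝ) * v i) = (n : ℝ) • v := rfl
    rw [this, map_smul, smul_eq_mul]
  have h6 : ∑ i, |(n : ℝ) * v i| = n * ∑ i, |v i| := by
    rw [Finset.mul_sum]
    refine Finset.sum_congr rfl fun i _ => ?_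
    rw [abs_mul, Nat.abs_cast]
  rw [h5] at h4
  rw [h6] at h3
  have h7 := (abs_le.1 h4).2
  have h8 : δ * (n * ∑ i, |v i|) ≤ δ * ((∑ i, |(w i : ℝ)|) + r) :=
    mul_le_mul_of_nonneg_left h3 hδ.le
  nlinarith

theorem sum_zero {r : ℕ} {v : Fin r → ℝ} (h : ∑ i, |v i| ≤ 0) : v = 0 := by
  have h0 : ∑ i, |v i| = 0 := le_antisymm h (Finset.sum_nonneg fun _ _ => abs_nonneg _)
  rw [Finset.sum_eq_zero_iff_of_nonneg fun _ _ => abs_nonneg _] at h0
  funext i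
  exact abs_eq_zero.1 (h0 i (Finset.mem_univ i))

open Classical in
theorem leafLIN : S_LIN := by
  intro r hr W hW δ hδ h
  have s1 := step1 W δ hδ h
  -- step 2
  have inj1 : ∀ l0 ∈ W, Function.Injective (LinearMap.pi fun l : {l // l ∈ W.erase l0} =>
      (l : (Fin r → ℝ) →ₗ[ℝ] ℝ)) := by
    intro l0 hl0
    rw [injective_iff_map_eq_zero]
    intro v hv
    have hv' : ∀ l ∈ W.erase l0, l v = 0 := fun l hl => congrFun hv ⟨l, hl⟩
    obtain ⟨l1, h1, h2⟩ := s1 v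
    obtain ⟨l2, h3, h4⟩ := s1 (-v)
    have h5 : ∑ i, |(-v) i| = ∑ i, |v i| := by
      refine Finset.sum_congr rfl fun i _ => ?_
      rw [Pi.neg_apply, abs_neg]
    rw [h5, map_neg] at h4
    have h6 : 0 ≤ ∑ i, |v i| := Finset.sum_nonneg fun _ _ => abs_nonneg _
    apply sum_zero
    by_cases e1 : l1 = l0
    · by_cases e2 : l2 = l0
      · rw [e1] at h2
        rw [e2] at h4
        nlinarith
      · have := hv' l2 (Finset.mem_erase.2 ⟨e2, h3⟩)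
        nlinarith
    · have := hv' l1 (Finset.mem_erase.2 ⟨e1, h1⟩)
      nlinarith
  have inj2 : ∀ l0 ∈ W, Function.Injective (LinearMap.pi fun l : {l // l ∈ W.erase l0} =>
      ((l : (Fin r → ℝ) →ₗ[ℝ] ℝ) - l0)) := by
    intro l0 hl0
    rw [injective_iff_map_eq_zero]
    intro v hv
    have hv' : ∀ l ∈ W, l v = l0 v := by
      intro l hl
      by_cases e : l = l0
      · rw [e]
      · have := congrFun hv ⟨l, Finset.mem_erase.2 ⟨e, hl⟩⟩
        exact sub_eq_zero.1 this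
    obtain ⟨l1, h1, h2⟩ := s1 v
    obtain ⟨l2, h3, h4⟩ := s1 (-v)
    have h5 : ∑ i, |(-v) i| = ∑ i, |v i| := by
      refine Finset.sum_congr rfl fun i _ => ?_
      rw [Pi.neg_apply, abs_neg]
    rw [h5, map_neg, hv' l2 h3] at h4
    rw [hv' l1 h1] at h2
    have h6 : 0 ≤ ∑ i, |v i| := Finset.sum_nonneg fun _ _ => abs_nonneg _
    apply sum_zero
    nlinarith
  have hne : W.Nonempty := by
    obtain ⟨l, hl, _⟩ := h 0
    exact ⟨l, hl⟩
  have hcard : W.card = r + 1 := by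
    obtain ⟨l0, hl0⟩ := hne
    have h1 := LinearMap.finrank_le_finrank_of_injective (inj1 l0 hl0)
    rw [Module.finrank_fintype_fun_eq_card, Module.finrank_fintype_fun_eq_card, Fintype.card_fin,
      Fintype.card_coe, Finset.card_erase_of_mem hl0] at h1
    have := Finset.card_pos.2 ⟨l0, hl0⟩
    omega
  have hfr : ∀ l0 ∈ W, Module.finrank ℝ (Fin r → ℝ) =
      Module.finrank ℝ ({l // l ∈ W.erase l0} → ℝ) := by
    intro l0 hl0
    rw [Module.finrank_fintype_fun_eq_card, Module.finrank_fintype_fun_eq_card, Fintype.card_fin,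
      Fintype.card_coe, Finset.card_erase_of_mem hl0]
    omega
  refine ⟨hcard, ?_, ?_⟩
  · intro J hJ hJW
    obtain ⟨l0, hl0, hl0J⟩ : ∃ l0 ∈ W, l0 ∉ J := by
      by_contra hc
      push Not at hc
      exact hJW (Finset.Subset.antisymm hJ hc)
    have hs := (LinearMap.injective_iff_surjective_of_finrank_eq_finrank (hfr l0 hl0)).1
      (inj1 l0 hl0)
    obtain ⟨v, hv⟩ := hs (fun _ => -1)
    have hv' : ∀ l ∈ W.erase l0, l v = -1 := fun l hl => congrFun hv ⟨l, hl⟩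
    obtain ⟨n, hn⟩ : ∃ n : ℕ, ∑ l ∈ W, bd l < n := exists_nat_gt _
    obtain ⟨w, hw⟩ := flr (fun i => (n : ℝ) * v i)
    refine ⟨w, fun l hl => ?_⟩
    have h4 := diff_le l _ w hw
    have h5 : l (fun i => (n : ℝ) * v i) = n * l v := by
      have : (fun i => (n : ℝ) * v i) = (n : ℝ) • v := rfl
      rw [this, map_smul, smul_eq_mul]
    rw [h5, hv' l (Finset.mem_erase.2 ⟨fun e => hl0J (e ▸ hl), hJ hl⟩)] at h4
    have h6 : bd l ≤ ∑ l ∈ W, bd l := Finset.single_le_sum (fun l _ => bd_nonneg l) (hJ hl)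
    have h7 := (abs_le.1 h4).2
    linarith
  · refine ⟨2 * ∑ l ∈ W, bd l, fun a => ?_⟩
    obtain ⟨l0, hl0⟩ := hne
    have hs := (LinearMap.injective_iff_surjective_of_finrank_eq_finrank (hfr l0 hl0)).1
      (inj2 l0 hl0)
    obtain ⟨v, hv⟩ := hs (fun l => a l0 - a l)
    have hv' : ∀ l ∈ W, a l + l v = a l0 + l0 v := by
      intro l hl
      by_cases e : l = l0
      · rw [e]
      · have h1 : l v - l0 v = a l0 - a l := congrFun hv ⟨l, Finset.mem_erase.2 ⟨e, hl⟩⟩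
        linarith
    obtain ⟨w, hw⟩ := flr v
    refine ⟨w, fun l hl l' hl' => ?_⟩
    have h4 := abs_le.1 (diff_le l _ w hw)
    have h5 := abs_le.1 (diff_le l' _ w hw)
    have h6 : bd l ≤ ∑ l ∈ W, bd l := Finset.single_le_sum (fun l _ => bd_nonneg l) hl
    have h7 : bd l' ≤ ∑ l ∈ W, bd l := Finset.single_le_sum (fun l _ => bd_nonneg l) hl'
    have h8 := hv' l hl
    have h9 := hv' l' hl'
    linarith [h4.2, h5.1]

end Pool.Agent.N769.CC
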